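import Mathlib
import Pool.Agent.H.MP_8d2e9f_nt.B

namespace Pool.Agent.Results.MP_8d2e9f_nt.Q2

open Polynomial Function Filter IntermediateField Pool.Agent.H.MP_8d2e9f_nt

theorem propP {E : Type} [Field E] [CharZero E] [Algebra.IsAlgebraic ℚ E] (ρ : E →+* ℝ)
    (p : ℕ → ℕ) (a : ℕ → E) (hp : ∀ k, (p k).Prime) (ho : ∀ k, Odd (p k))
    (ha : ∀ k, a k ^ p k = 2) (htop : adjoin ℚ (Set.range a) = ⊤) (hmono : StrictMono p)
    (hq : ∀ M, ∃ q, M < q ∧ q.Prime ∧ ∀ k, q ≠ p k ∧ ¬ p k ∣ q - 1)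
    (f : E[X]) (hd : 2 ≤ f.natDegree) (S : Set E) (hS : (fun y => f.eval y) '' S = S) :
    S.Finite := by
  obtain ⟨M, hM⟩ := period_good f hd
  obtain ⟨q, h1, h2, h3⟩ := hq (M + 2)
  obtain ⟨r, k1, k2, k3⟩ := hq q
  have := Fact.mk h2
  have := Fact.mk k2
  obtain ⟨σ⟩ := exists_emb ρ p a hp ho ha htop (K := ℚ_[q])
    fun k => padic_root q (p k) (hp k) (by omega) (h3 k).1 (h3 k).2
  obtain ⟨τ⟩ := exists_emb ρ p a hp ho ha htop (K := ℚ_[r])
    fun k => padic_root r (p k) (hp k) (by omega) (k3 k).1 (k3 k).2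
  set A := q.factorial * (q - 1) with hA
  set B := r.factorial * (r - 1) with hB
  have hA0 : 0 < A := Nat.mul_pos (Nat.factorial_pos _) (by omega)
  have hB0 : 0 < B := Nat.mul_pos (Nat.factorial_pos _) (by omega)
  have hper : ∀ x ∈ S, IsPeriodicPt (fun y => f.eval y) (A * B) x := by
    intro x hx
    have hpre : ∀ y : S, ∃ z : S, f.eval (z : E) = y := by
      rintro ⟨y, hy⟩
      rw [← hS] at hy
      obtain ⟨z, hz, hzy⟩ := hy
      exact ⟨⟨z, hz⟩, hzy⟩
    choose b hb using hpre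
    obtain ⟨n, hn, hpn⟩ := periodic ρ p a hp ho ha htop hmono f hd
      (fun k => (b^[k] ⟨x, hx⟩ : S)) (fun k => by rw [iterate_succ_apply']; exact hb _)
    obtain ⟨e, he⟩ := hM q (by omega) σ x n hn hpn
    obtain ⟨e', he'⟩ := hM r (by omega) τ x n hn hpn
    have g1 := he.const_mul B
    have g2 := he'.const_mul A
    have g3 := g1.gcd g2
    have hc : Nat.gcd (q ^ e) (r ^ e') = 1 :=
      Nat.Coprime.pow _ _ ((Nat.coprime_primes h2 k2).2 (by omega))
    rw [show B * (A * q ^ e) = (A * B) * q ^ e by ring,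
      show A * (B * r ^ e') = (A * B) * r ^ e' by ring, Nat.gcd_mul_left, hc, mul_one] at g3
    exact g3
  have hne : f.comp^[A * B] X - X ≠ 0 := by
    intro h
    have h4 := congrArg natDegree (sub_eq_zero.1 h)
    rw [natDegree_iterate_comp, natDegree_X, mul_one] at h4
    have := Nat.one_lt_pow (Nat.mul_pos hA0 hB0).ne' (show 1 < f.natDegree by omega)
    omega
  refine (Polynomial.finite_setOf_isRoot hne).subset fun x hx => ?_
  have := hper x hx
  simp only [Set.mem_setOf_eq, IsRoot.def, eval_sub, eval_X, iterate_comp_eval, sub_eq_zero]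
  exact this

theorem seq_ex : ∃ p : ℕ → ℕ, (∀ k, (p k).Prime) ∧ (∀ k, Odd (p k)) ∧ StrictMono p ∧
    ∀ M, ∃ q, M < q ∧ q.Prime ∧ ∀ k, q ≠ p k ∧ ¬ p k ∣ q - 1 := by
  have h1 : ∀ n : ℕ, ∃ q : ℕ, q > n ∧ q.Prime ∧ (q : ℤ) ≡ -1 [ZMOD n.factorial] := fun n =>
    Nat.forall_exists_prime_gt_and_zmodEq n (Nat.factorial_ne_zero n)
      isCoprime_one_left.neg_left
  choose Q hQ1 hQ2 hQ3 using h1
  choose P hP1 hP2 using Nat.exists_infinite_primes
  obtain ⟨p, hz, hs⟩ : ∃ p : ℕ → ℕ, p 0 = 3 ∧ ∀ k, p (k + 1) = P (Q (p k) + 1) :=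
    ⟨fun k => Nat.rec 3 (fun _ m => P (Q m + 1)) k, rfl, fun _ => rfl⟩
  have hlt : ∀ k, Q (p k) < p (k + 1) := fun k => by rw [hs]; exact hP1 _
  have hmono : StrictMono p := strictMono_nat_of_lt_succ fun k => (hQ1 _).trans (hlt k)
  have hp : ∀ k, (p k).Prime := by
    intro k
    cases k with
    | zero => rw [hz]; exact Nat.prime_three
    | succ k => rw [hs]; exact hP2 _
  have h3 : ∀ k, 3 ≤ p k := fun k => hz ▸ hmono.monotone (Nat.zero_le k)
  refine ⟨p, hp, fun k => (hp k).odd_of_ne_two (by have := h3 k; omega), hmono, fun M => ?_⟩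
  refine ⟨Q (p M), lt_of_le_of_lt hmono.le_apply (hQ1 _), hQ2 _, fun k => ?_⟩
  have hq2 := (hQ2 (p M)).two_le
  rcases le_or_gt k M with h | h
  · have h4 : p k ≤ p M := hmono.monotone h
    have h5 := hQ1 (p M)
    refine ⟨by omega, fun hd => ?_⟩
    have h6 : (Nat.cast (p k) : ℤ) ∣ ((Nat.factorial (p M) : ℕ) : ℤ) :=
      Int.natCast_dvd_natCast.2 (Nat.dvd_factorial (hp k).pos h4)
    have h7 : (Nat.cast (p k) : ℤ) ∣ -1 - Q (p M) := h6.trans (hQ3 _).dvd
    have h8 : (Nat.cast (p k) : ℤ) ∣ ((Q (p M) - 1 : ℕ) : ℤ) := by exact_mod_cast hd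
    rw [Nat.cast_sub (by omega)] at h8
    have h9 := dvd_add h7 h8
    have : (-1 - Q (p M) + ((Q (p M) : ℤ) - (1 : ℕ))) = -(2 : ℕ) := by push_cast; ring
    rw [this, dvd_neg] at h9
    have h10 : p k ∣ 2 := by exact_mod_cast h9
    have := Nat.le_of_dvd two_pos h10
    have := h3 k
    omega
  · have h4 : p (M + 1) ≤ p k := hmono.monotone h
    have h5 := hlt M
    refine ⟨by omega, fun hd => ?_⟩
    have := Nat.le_of_dvd (by omega) hd
    omega

theorem height_le {K : Type} [Field K] [CharZero K] {β : K} {p m : ℕ} (hp : 0 < p)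
    (h : β ^ p = 2 ^ m) : NumberField.absLogHeight₁ β ≤ m * Real.log 2 / p := by
  have hi : IsIntegral ℚ β := ⟨X ^ p - C (2 ^ m), monic_X_pow_sub_C _ hp.ne', by
    simp only [eval₂_sub, eval₂_X_pow, eval₂_C, h]
    rw [map_pow, map_ofNat, sub_self]⟩
  unfold NumberField.absLogHeight₁ NumberField.absMulHeight₁
  rw [dif_pos hi]
  have : FiniteDimensional ℚ ℚ⟮β⟯ := adjoin.finiteDimensional hi
  have : NumberField ℚ⟮β⟯ := {}
  rw [Real.log_rpow (Height.mulHeight₁_pos _)]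
  have h1 : (AdjoinSimple.gen ℚ β) ^ p = 2 ^ m := by
    apply (algebraMap ℚ⟮β⟯ K).injective
    rw [map_pow, map_pow, map_ofNat]; exact h
  have h2 := congrArg Height.logHeight₁ h1
  rw [Height.logHeight₁_pow, Height.logHeight₁_pow] at h2
  have h3 := Height.logHeight₁_add_le (1 : ℚ⟮β⟯) 1
  rw [Height.logHeight₁_one, one_add_one_eq_two, NumberField.totalWeight_eq_finrank] at h3
  have h4 : (0 : ℝ) < Module.finrank ℚ ℚ⟮β⟯ := by exact_mod_cast Module.finrank_pos
  have hp' : (0 : ℝ) < p := by exact_mod_cast hp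
  rw [← Height.logHeight₁_eq_log_mulHeight₁, inv_mul_le_iff₀ h4, ← mul_div_assoc,
    le_div_iff₀ hp', mul_comm, h2]
  have : (0 : ℝ) ≤ m := Nat.cast_nonneg _
  nlinarith

theorem result : ∃ F : IntermediateField ℚ (AlgebraicClosure ℚ),
    (∀ f : Polynomial F, 0 < f.natDegree →
      (∃ S : Set F, S.Infinite ∧ (fun y => f.eval y) '' S = S) → f.natDegree = 1) ∧
    ∀ c : ℝ, 0 < c → ∃ α ∈ F, (Set.range fun n : ℕ => (fun y => y ^ 2)^[n] α).Infinite ∧
      NumberField.absLogHeight₁ α < c ∧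
      ∀ H : AlgebraicClosure ℚ → ℝ, (∀ y, H (y ^ 2) = 2 * H y) →
        (∃ C : ℝ, ∀ y, |H y - NumberField.absLogHeight₁ y| ≤ C) → H α < c := by
  obtain ⟨p, hp, ho, hmono, hq⟩ := seq_ex
  have halg : Algebra.IsAlgebraic ℚ (AlgebraicClosure ℚ) := AlgebraicClosure.isAlgebraic ℚ
  let ι : AlgebraicClosure ℚ →ₐ[ℚ] ℂ := IsAlgClosed.lift
  have hex : ∀ k, ∃ z : AlgebraicClosure ℚ, z ^ p k = 2 ∧ (ι z).im = 0 := by
    intro k
    have h0 : (X ^ p k - C 2 : (AlgebraicClosure ℚ)[X]) ≠ 0 :=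
      (monic_X_pow_sub_C _ (hp k).ne_zero).ne_zero
    have hr : ((((2 : ℝ) ^ ((p k : ℝ)⁻¹) : ℝ) : ℂ)) ^ p k = 2 := by
      rw [← Complex.ofReal_pow, Real.rpow_inv_natCast_pow (by norm_num) (hp k).ne_zero]; simp
    obtain ⟨z, hz⟩ := (IsAlgClosed.splits (X ^ p k - C 2 : (AlgebraicClosure ℚ)[X])).mem_range_of_isRoot
      h0 (i := ι.toRingHom) (x := (((2 : ℝ) ^ ((p k : ℝ)⁻¹) : ℝ) : ℂ)) (by
        simp only [Polynomial.map_sub, Polynomial.map_pow, map_X, map_C, IsRoot.def, eval_sub,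
          eval_pow, eval_X, eval_C, hr]
        rw [map_ofNat, sub_self])
    have hz' : ι z = (((2 : ℝ) ^ ((p k : ℝ)⁻¹) : ℝ) : ℂ) := hz
    refine ⟨z, ι.toRingHom.injective ?_, by rw [hz', Complex.ofReal_im]⟩
    rw [map_pow, map_ofNat, hz, hr]
  choose α hα him using hex
  let F := adjoin ℚ (Set.range α)
  have hmem : ∀ k, α k ∈ F := fun k => subset_adjoin _ _ ⟨k, rfl⟩
  have hreal : ∀ z ∈ F, (ι z).im = 0 := by
    intro z hz
    induction hz using adjoin_induction with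
    | mem y hy => obtain ⟨k, rfl⟩ := hy; exact him k
    | algebraMap r => rw [AlgHom.commutes]; simp
    | add y z _ _ h1 h2 => simp [h1, h2]
    | inv y _ h1 => simp [h1]
    | mul y z _ _ h1 h2 => simp [h1, h2]
  let ρ : F →+* ℝ :=
    { toFun := fun z => (ι z).re
      map_one' := by simp
      map_mul' := fun y z => by simp [hreal y y.2]
      map_zero' := by simp
      map_add' := fun y z => by simp }
  refine ⟨F, fun f hf ⟨S, hS, hfS⟩ => ?_, fun c hc => ?_⟩
  · by_contra hne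
    have : Algebra.IsAlgebraic ℚ F := ⟨fun z =>
      (isAlgebraic_algHom_iff F.val Subtype.val_injective).1 (halg.isAlgebraic _)⟩
    refine hS (propP ρ p (fun k => ⟨α k, hmem k⟩) hp ho (fun k => ?_) ?_ hmono hq f
      (by omega) S hfS)
    · apply (algebraMap F (AlgebraicClosure ℚ)).injective
      rw [map_pow, map_ofNat]; exact hα k
    · apply lift_injective F
      refine (lift_adjoin ℚ F _).trans (Eq.trans ?_ (lift_top ℚ F).symm)
      rw [← Set.range_comp]
      rfl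
  · obtain ⟨k, hk⟩ := exists_nat_gt (Real.log 2 / c)
    have hpk : (k : ℝ) ≤ p k := by exact_mod_cast hmono.le_apply
    have hp0 : (0 : ℝ) < p k := by exact_mod_cast (hp k).pos
    have hlt : Real.log 2 / p k < c := by
      rw [div_lt_iff₀ hc] at hk
      rw [div_lt_iff₀ hp0]; nlinarith
    have hit : ∀ n, ((fun y => y ^ 2)^[n] (α k)) ^ p k = 2 ^ (2 ^ n) := by
      intro n
      induction n with
      | zero => simpa using hα k
      | succ n ih =>
        rw [iterate_succ_apply', ← pow_mul, mul_comm, pow_mul, ih, ← pow_mul, pow_succ]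
    refine ⟨α k, hmem k, Set.infinite_range_of_injective fun m n hmn => ?_, ?_,
      fun H hH ⟨C, hC⟩ => ?_⟩
    · have h1 := hit m
      have hmn : (fun y => y ^ 2)^[m] (α k) = (fun y => y ^ 2)^[n] (α k) := hmn
      rw [hmn, hit n] at h1
      have h2 : (2 : ℕ) ^ (2 ^ n) = 2 ^ (2 ^ m) := by exact_mod_cast h1
      exact (Nat.pow_right_injective le_rfl (Nat.pow_right_injective le_rfl h2)).symm
    · have := height_le (m := 1) (hp k).pos (by simpa using hα k)
      simp only [Nat.cast_one, one_mul] at this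
      linarith
    · have h1 : ∀ n, H ((fun y => y ^ 2)^[n] (α k)) = 2 ^ n * H (α k) := by
        intro n
        induction n with
        | zero => simp
        | succ n ih => rw [iterate_succ_apply', hH, ih]; ring
      by_contra hge
      push Not at hge
      obtain ⟨n, hn⟩ := pow_unbounded_of_one_lt (C / (c - Real.log 2 / p k))
        (by norm_num : (1 : ℝ) < 2)
      rw [div_lt_iff₀ (by linarith)] at hn
      have h2 := (abs_le.1 (hC ((fun y => y ^ 2)^[n] (α k)))).2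
      have h3 := height_le (hp k).pos (hit n)
      rw [h1] at h2
      push_cast at h3
      rw [mul_div_assoc] at h3
      have h4 : (0 : ℝ) < 2 ^ n := by positivity
      nlinarith

end Pool.Agent.Results.MP_8d2e9f_nt.Q2
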